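import Pool.Agent.TH439.TF4

/-!
# The property (ZC) over number fields: reduction to threefolds

If (ZC) holds for all smooth projective geometrically integral threefolds over all number fields,
then it holds for all smooth projective geometrically integral varieties of dimension `≥ 3` over all
number fields.

More generally, let `p` be a prime number and consider a class of global fields of characteristic
different from `p`, closed under finite extensions: if for the threefolds over these fields an
orthogonal family of local zero-cycles of degree 1 implies the existence of a zero-cycle of degree
prime to `p`, then the same holds in all dimensions `≥ 3`.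

Proof: after an extension of degree prime to `p` there is a zero-cycle of `p`-power degree on `X`,
and then only the pairing with `Br(X){p}` matters (`bm_of_primary`); two curves on `X` capture the
pairings of all local zero-cycles of degree 1 with `Br(X_w){p}` at all places `w` (`exists_curve`,
Nakayama's lemma); a smooth hypersurface section through the two curves and the zero-cycle has an
orthogonal family (`core_step`).
-/

set_option autoImplicit false

open Pool.Agent.TH439.TF

universe u

namespace Pool.Agent.Results.MP_751085_ag.NumberFields

/-- **(ZC) for threefolds implies (ZC) in all dimensions.** -/
theorem result (A : Arithmetic.{u}) :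
    ((∀ (p : ℕ) [Fact p.Prime], AtPrime A p) → A.ZCDim 3 → ∀ d : ℕ, 3 ≤ d → A.ZCDim d) ∧
    (∀ (p : ℕ) [Fact p.Prime], AtPrime A p → A.ZCDimAt p 3 → ∀ d : ℕ, 3 ≤ d → A.ZCDimAt p d) :=
  ⟨fun D h3 d hd => A.zcDim D h3 d hd, fun p _ D h3 d hd => A.zcDimAt p D h3 d hd⟩

end Pool.Agent.Results.MP_751085_ag.NumberFields
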